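import Pool.Agent.H623R3.NORE.Top

/-!
# NORE, E1: assembly
-/

set_option autoImplicit false
set_option linter.unusedSectionVars false

namespace Pool.Agent.H623R3.NORE

open TensorProduct MulOpposite Matrix

section
variable (k : Type) [Field k] {R : Type} [Ring R] [Algebra k R] {m n : ℕ}

/-- the columns killed by all rows which kill `A` -/
def CA (A : Matrix (Fin m) (Fin n) R) : Submodule Rᵐᵒᵖ (Fin m → R) where
  carrier := {y | ∀ z : Fin m → R, z ᵥ* A = 0 → z ⬝ᵥ y = 0}
  add_mem' {a b} ha hb z hz := by rw [dotProduct_add, ha z hz, hb z hz, add_zero]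
  zero_mem' z _ := dotProduct_zero z
  smul_mem' c y hy z hz := by
    have h : z ⬝ᵥ (c • y) = (z ⬝ᵥ y) * c.unop := by
      simp only [dotProduct, Pi.smul_apply, Finset.sum_mul]
      refine Finset.sum_congr rfl fun i _ => ?_
      rw [mul_assoc]
      rfl
    rw [h, hy z hz, zero_mul]

theorem mem_CA {A : Matrix (Fin m) (Fin n) R} {y : Fin m → R} :
    y ∈ CA A ↔ ∀ z : Fin m → R, z ᵥ* A = 0 → z ⬝ᵥ y = 0 := Iff.rfl

theorem hT [IsDomain R] (A : Matrix (Fin m) (Fin n) R) (x : NN (CA A)) (c : R)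
    (h : op c • x = 0) : x = 0 ∨ c = 0 := by
  obtain ⟨y, rfl⟩ := Submodule.Quotient.mk_surjective _ x
  by_cases hc : c = 0
  · exact Or.inr hc
  · left
    rw [← Submodule.Quotient.mk_smul, Submodule.Quotient.mk_eq_zero] at h
    rw [Submodule.Quotient.mk_eq_zero]
    intro z hz
    have h1 := h z hz
    have h2 : z ⬝ᵥ (op c • y) = (z ⬝ᵥ y) * c := by
      simp only [dotProduct, Pi.smul_apply, Finset.sum_mul]
      refine Finset.sum_congr rfl fun i _ => ?_
      rw [mul_assoc]
      rfl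
    rw [h2] at h1
    exact (mul_eq_zero.1 h1).resolve_right hc

theorem inj_Vm (C : Submodule Rᵐᵒᵖ (Fin m → R)) {X : Type} [AddCommGroup X] [Module k X]
    [Module Rᵐᵒᵖ X] [IsScalarTower k Rᵐᵒᵖ X] (x : X) (h : ∀ c : R, op c • x = 0 → c = 0) :
    Function.Injective (Vm k C (hx x)) := by
  rw [injective_iff_map_eq_zero]
  intro v hv
  obtain ⟨ρ, rfl⟩ := Submodule.Quotient.mk_surjective _ v
  rw [Vm_mk, Submodule.Quotient.mk_eq_zero] at hv
  rw [Submodule.Quotient.mk_eq_zero]
  intro c hc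
  have h1 := hv c hc
  apply h
  rw [← h1]
  have h2 : ∀ q, op (c q) • (hx x) (ρ q) = op (ρ q * c q) • x := fun q => by
    rw [hx_apply, ← mul_smul]
    rfl
  rw [Finset.sum_congr rfl fun q _ => h2 q, ← Finset.sum_smul]
  congr 1
  rw [← Finset.op_sum]
  rfl

theorem claimD' [IsDomain R] (A : Matrix (Fin m) (Fin n) R) {μ : TT k (CA A) (WW k (CA A)) R}
    (hμ : μ ≠ 0) {t : TT k (CA A) (WW k (CA A)) R} (ht : t ≠ 0) : Th k (CA A) R t μ ≠ 0 := by
  refine claimD k (CA A) (hT A) (fun x hx0 => inj_Vm k (CA A) x fun c hc => ?_)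
    (fun x hx0 => inj_Vm k (CA A) x fun c hc => ?_) hμ ht
  · exact (hT A x c hc).resolve_left hx0
  · exact (mul_eq_zero.1 (show x * c = 0 from hc)).resolve_left hx0

theorem TH_mul (C : Submodule Rᵐᵒᵖ (Fin m → R)) {X : Type} [AddCommGroup X] [Module k X]
    [Module Rᵐᵒᵖ X] [IsScalarTower k Rᵐᵒᵖ X] (x : X) (r : R) :
    TH k C (WW k C) X x ∘ₗ TH k C (WW k C) R r = TH k C (WW k C) X (op r • x) := by
  rw [TH_apply k C x, Tm_TH, hx_apply]

/-- the statement of the left kernel property -/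
def KP (k : Type) [Field k] {R : Type} [Ring R] [Algebra k R] {m n : ℕ}
    (A : Matrix (Fin m) (Fin n) R) : Prop :=
  ∀ t : Fin m → TT k (CA A) (WW k (CA A)) R,
    (∀ j, ∑ p, Th k (CA A) R (t p) ∘ₗ TH k (CA A) (WW k (CA A)) R (A p j) = 0) →
    ∀ q, ∑ p, Th k (CA A) R (t p) ∘ₗ (sg k (CA A) p ∘ₗ
      TH k (CA A) (WW k (CA A)) (NN (CA A)) (pe (CA A) q)) = Th k (CA A) R (t q)

/-- the statement of the preservation property -/
def PP (k : Type) [Field k] {R : Type} [Ring R] [Algebra k R] {m n : ℕ}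
    (A : Matrix (Fin m) (Fin n) R) : Prop :=
  ∀ (s t : ℕ) (B : Matrix (Fin s) (Fin t) R) (g : Matrix (Fin t) (Fin t) R), B * g = 0 →
    (∀ y : Fin t → R, B *ᵥ y = 0 → g *ᵥ y = y) →
    ∀ μ : Fin t → TT k (CA A) (WW k (CA A)) R,
      (∀ i, ∑ j, TH k (CA A) (WW k (CA A)) R (B i j) (μ j) = 0) →
      ∀ i, ∑ j, TH k (CA A) (WW k (CA A)) R (g i j) (μ j) = μ i

theorem sg_mem (C : Submodule Rᵐᵒᵖ (Fin m → R)) (p q : Fin m) :
    sg k C p ∘ₗ TH k C (WW k C) (NN C) (pe C q) ∈ Rg k C R := by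
  have h := nus_Om_mem k C (Pi.single p (1 : R)) (Finsupp.single [] (pe C q))
  rw [Om_single] at h
  have h1 : nus k C (Pi.single p (1 : R)) = sg k C p := by
    refine LinearMap.ext fun t => ?_
    simp only [nus, LinearMap.sum_apply, LinearMap.comp_apply]
    rw [Finset.sum_eq_single p]
    · rw [Pi.single_eq_same, TH_one]
      rfl
    · intro j _ hj
      rw [Pi.single_eq_of_ne hj, map_zero]
      rfl
    · intro hp
      exact absurd (Finset.mem_univ p) hp
  rw [h1] at h
  exact h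

noncomputable instance instRingSS (C : Submodule Rᵐᵒᵖ (Fin m → R)) : Ring (SS k C) :=
  @Subalgebra.toRing k (Module.End k (TT k C (WW k C) R)) _ inferInstance inferInstance (SS k C)

theorem e1_of [IsDomain R] (A : Matrix (Fin m) (Fin n) R) (hK : KP k A) (hP : PP k A) :
    ∃ (S : Type) (_ : Ring S) (_ : Algebra k S) (_ : IsDomain S) (φ : R →ₐ[k] S)
      (e : Matrix (Fin m) (Fin m) S),
      Function.Injective φ ∧ e * A.map φ = 0 ∧
      (∀ ρ : Fin m → S, ρ ᵥ* A.map φ = 0 → ρ ᵥ* e = ρ) ∧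
      ∀ (s t : ℕ) (B : Matrix (Fin s) (Fin t) R) (g : Matrix (Fin t) (Fin t) R), B * g = 0 →
        (∀ y : Fin t → R, B *ᵥ y = 0 → g *ᵥ y = y) →
        ∀ y : Fin t → S, B.map φ *ᵥ y = 0 → g.map φ *ᵥ y = y := by
  have h10 : ((1 : R), (0 : VV k (CA A) R ⊗[k] WW k (CA A))) ≠ 0 := fun h =>
    one_ne_zero (congrArg Prod.fst h)
  have hinj : ∀ x ∈ SS k (CA A), x (1, 0) = 0 → x = 0 := by
    intro x hx h
    obtain ⟨t, rfl⟩ := hx
    by_contra hne
    have ht : t ≠ 0 := fun h => hne (by rw [h, map_zero])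
    exact claimD' k A h10 ht h
  have hdom : IsDomain (SS k (CA A)) := by
    have : NoZeroDivisors (SS k (CA A)) := by
      refine ⟨fun {x y} hxy => ?_⟩
      by_contra hcon
      push Not at hcon
      obtain ⟨hx, hy⟩ := hcon
      have hy1 : (y : Module.End k (TT k (CA A) (WW k (CA A)) R)) (1, 0) ≠ 0 := fun h =>
        hy (Subtype.ext (hinj _ y.2 h))
      obtain ⟨t, ht⟩ := x.2
      have ht0 : t ≠ 0 := fun h => hx (Subtype.ext (by rw [← ht, h, map_zero]; rfl))
      apply claimD' k A hy1 ht0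
      rw [ht]
      have := congrArg (fun z : SS k (CA A) =>
        (z : Module.End k (TT k (CA A) (WW k (CA A)) R)) (1, 0)) hxy
      exact this
    have : Nontrivial (SS k (CA A)) := by
      refine ⟨⟨1, 0, fun h => ?_⟩⟩
      have := congrArg (fun z : SS k (CA A) =>
        (z : Module.End k (TT k (CA A) (WW k (CA A)) R)) (1, 0)) h
      exact h10 this
    exact NoZeroDivisors.to_isDomain _
  let φ : R →ₐ[k] SS k (CA A) :=
    { toFun := fun r => ⟨TH k (CA A) (WW k (CA A)) R r, TH_mem k (CA A) r⟩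
      map_one' := Subtype.ext (TH_one k (CA A))
      map_mul' := fun a b => Subtype.ext (TH_mul k (CA A) a b).symm
      map_zero' := Subtype.ext (map_zero _)
      map_add' := fun a b => Subtype.ext (map_add _ a b)
      commutes' := fun r => Subtype.ext (by
        show TH k (CA A) (WW k (CA A)) R (algebraMap k R r) = _
        rw [Algebra.algebraMap_eq_smul_one, map_smul, TH_one]
        rfl) }
  let e : Matrix (Fin m) (Fin m) (SS k (CA A)) := fun p q =>
    ⟨sg k (CA A) p ∘ₗ TH k (CA A) (WW k (CA A)) (NN (CA A)) (pe (CA A) q), sg_mem k (CA A) p q⟩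
  have hsum : ∀ {ι : Type} (s : Finset ι) (x : ι → SS k (CA A)),
      ((∑ i ∈ s, x i : SS k (CA A)) : Module.End k (TT k (CA A) (WW k (CA A)) R)) =
        ∑ i ∈ s, (x i : Module.End k (TT k (CA A) (WW k (CA A)) R)) := by
    intro ι s x
    exact map_sum (SS k (CA A)).val x s
  refine ⟨SS k (CA A), inferInstance, inferInstance, hdom, φ, e, ?_, ?_, ?_, ?_⟩
  · rw [injective_iff_map_eq_zero]
    intro r hr
    have h1 : TH k (CA A) (WW k (CA A)) R r = 0 := congrArg Subtype.val hr
    have h2 := congrArg Prod.fst (LinearMap.congr_fun h1 (1, 0))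
    have h3 : r * 1 = 0 := h2
    rwa [mul_one] at h3
  · ext1 p j
    apply Subtype.ext
    rw [Matrix.mul_apply, hsum]
    have h1 : ∀ q, ((e p q * (A.map φ) q j : SS k (CA A)) :
        Module.End k (TT k (CA A) (WW k (CA A)) R)) = sg k (CA A) p ∘ₗ
          TH k (CA A) (WW k (CA A)) (NN (CA A)) (op (A q j) • pe (CA A) q) := by
      intro q
      rw [← TH_mul]
      rfl
    rw [Finset.sum_congr rfl fun q _ => h1 q]
    have h2 : ∑ q, sg k (CA A) p ∘ₗ TH k (CA A) (WW k (CA A)) (NN (CA A))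
        (op (A q j) • pe (CA A) q) = sg k (CA A) p ∘ₗ TH k (CA A) (WW k (CA A)) (NN (CA A))
          (∑ q, op (A q j) • pe (CA A) q) := by
      rw [map_sum]
      refine LinearMap.ext fun t => ?_
      simp only [LinearMap.sum_apply, LinearMap.comp_apply, map_sum]
    rw [h2, ← mk_eq_sum (CA A) (fun q => A q j)]
    have h3 : (Submodule.Quotient.mk (fun q => A q j) : NN (CA A)) = 0 := by
      rw [Submodule.Quotient.mk_eq_zero]
      intro z hz
      exact congrFun hz j
    rw [h3, map_zero, LinearMap.comp_zero]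
    rfl
  · intro ρ hρ
    have hex : ∀ p, ∃ t, Th k (CA A) R t = (ρ p : Module.End k (TT k (CA A) (WW k (CA A)) R)) :=
      fun p => (ρ p).2
    choose t ht using hex
    have h1 : ∀ j, ∑ p, Th k (CA A) R (t p) ∘ₗ TH k (CA A) (WW k (CA A)) R (A p j) = 0 := by
      intro j
      have h2 := congrArg Subtype.val (congrFun hρ j)
      simp only [Matrix.vecMul, dotProduct] at h2
      rw [hsum] at h2
      rw [← show (((0 : Fin n → SS k (CA A)) j : SS k (CA A)) :
        Module.End k (TT k (CA A) (WW k (CA A)) R)) = 0 from rfl, ← h2]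
      refine Finset.sum_congr rfl fun p _ => ?_
      rw [ht p]
      rfl
    have h3 := hK t h1
    funext q
    apply Subtype.ext
    simp only [Matrix.vecMul, dotProduct]
    rw [hsum, ← ht q, ← h3 q]
    refine Finset.sum_congr rfl fun p _ => ?_
    rw [ht p]
    rfl
  · intro s t B g hBg hker y hy
    have h1 : ∀ i, ∑ j, TH k (CA A) (WW k (CA A)) R (B i j)
        ((y j : Module.End k (TT k (CA A) (WW k (CA A)) R)) (1, 0)) = 0 := by
      intro i
      have h2 := congrArg Subtype.val (congrFun hy i)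
      simp only [Matrix.mulVec, dotProduct] at h2
      rw [hsum] at h2
      have h4 := LinearMap.congr_fun h2 (1, 0)
      rw [LinearMap.sum_apply] at h4
      exact h4
    have h3 := hP s t B g hBg hker _ h1
    funext i
    have h5 : (g.map φ *ᵥ y) i - y i = 0 := by
      apply Subtype.ext
      refine hinj _ ((g.map φ *ᵥ y) i - y i).2 ?_
      have h6 : (((g.map φ *ᵥ y) i - y i : SS k (CA A)) :
          Module.End k (TT k (CA A) (WW k (CA A)) R)) =
          (∑ j, ((g.map φ i j * y j : SS k (CA A)) :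
            Module.End k (TT k (CA A) (WW k (CA A)) R))) - (y i : Module.End k _) := by
        rw [← hsum]
        rfl
      rw [h6, LinearMap.sub_apply, LinearMap.sum_apply]
      have h7 := h3 i
      rw [sub_eq_zero]
      exact h7
    exact sub_eq_zero.1 h5

theorem taskE1_of (h : ∀ (R : Type) [Ring R] [Algebra k R] [IsDomain R] (m n : ℕ)
    (A : Matrix (Fin m) (Fin n) R), KP k A ∧ PP k A) : H354P.TaskE1 k :=
  fun R _ _ _ m n A => e1_of k A (h R m n A).1 (h R m n A).2

end

end Pool.Agent.H623R3.NORE
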