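import Pool.Agent.H623R3.NORE.Mod

/-!
# NORE, E1: closure of the normal forms under multiplication
-/

set_option autoImplicit false
set_option linter.unusedSectionVars false

namespace Pool.Agent.H623R3.NORE

open TensorProduct MulOpposite

section
variable (k : Type) [Field k] {R : Type} [Ring R] [Algebra k R] {m : ℕ}
  (C : Submodule Rᵐᵒᵖ (Fin m → R))

variable {X Y : Type} [AddCommGroup X] [Module k X] [Module Rᵐᵒᵖ X] [IsScalarTower k Rᵐᵒᵖ X]
  [AddCommGroup Y] [Module k Y] [Module Rᵐᵒᵖ Y] [IsScalarTower k Rᵐᵒᵖ Y]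

theorem TH_apply (x : X) : TH k C (WW k C) X x = Tm k C (WW k C) (hx x) := rfl

theorem Tm_TH (g : X →ₗ[Rᵐᵒᵖ] Y) (x : X) :
    Tm k C (WW k C) g ∘ₗ TH k C (WW k C) X x = TH k C (WW k C) Y (g x) := by
  rw [TH_apply, TH_apply, ← Tm_comp]
  congr 1
  ext
  simp

theorem Tm_nus (g : X →ₗ[Rᵐᵒᵖ] Y) (ν : Fin m → X) :
    Tm k C (WW k C) g ∘ₗ nus k C ν = nus k C (fun q => g (ν q)) := by
  refine LinearMap.ext fun t => ?_
  simp only [nus, LinearMap.comp_apply, LinearMap.sum_apply, map_sum]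
  refine Finset.sum_congr rfl fun q _ => ?_
  rw [← Tm_TH]
  rfl

/-- `ν ↦ νσ` is linear -/
noncomputable def nusL (X : Type) [AddCommGroup X] [Module k X] [Module Rᵐᵒᵖ X]
    [IsScalarTower k Rᵐᵒᵖ X] :
    (Fin m → X) →ₗ[k] (TT k C (WW k C) (NN C) →ₗ[k] TT k C (WW k C) X) where
  toFun ν := nus k C ν
  map_add' a b := by
    refine LinearMap.ext fun t => ?_
    simp [nus, LinearMap.sum_apply, Finset.sum_add_distrib]
  map_smul' s a := by
    refine LinearMap.ext fun t => ?_
    simp [nus, LinearMap.sum_apply, Finset.smul_sum]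

theorem exists_g {ν : Fin m → X} (h : ν ∈ KK k C X) :
    ∃ g : NN C →ₗ[Rᵐᵒᵖ] X, ∀ q, g (pe C q) = ν q := by
  let f : (Fin m → R) →ₗ[Rᵐᵒᵖ] X := ∑ q, (hx (ν q)) ∘ₗ LinearMap.proj q
  have hf : C ≤ LinearMap.ker f := by
    intro c hc
    rw [LinearMap.mem_ker]
    simp only [f, LinearMap.sum_apply, LinearMap.comp_apply, LinearMap.proj_apply, hx_apply]
    exact h c hc
  refine ⟨C.liftQ f hf, fun q => ?_⟩
  · have : C.liftQ f hf (Submodule.Quotient.mk (Pi.single q 1)) = f (Pi.single q 1) := rfl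
    rw [pe, this]
    simp only [f, LinearMap.sum_apply, LinearMap.comp_apply, LinearMap.proj_apply, hx_apply]
    rw [Finset.sum_eq_single q]
    · simp
    · intro j _ hj
      rw [Pi.single_eq_of_ne hj]
      simp
    · intro hq
      exact absurd (Finset.mem_univ q) hq

theorem nus_K {ν : Fin m → X} {g : NN C →ₗ[Rᵐᵒᵖ] X} (h : ∀ q, g (pe C q) = ν q) :
    nus k C ν = Tm k C (WW k C) g := by
  have h1 : ν = fun q => g (pe C q) := funext fun q => (h q).symm
  rw [h1, ← Tm_nus, pi_sigma, LinearMap.comp_id]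

/-- the operator of a word -/
noncomputable def wop : List (bet k C) → (TT k C (WW k C) (NN C) →ₗ[k] TT k C (WW k C) (NN C))
  | [] => LinearMap.id
  | b :: w => nus k C (lam k C (NN C) (bs k C b)) ∘ₗ wop w

/-- the operators with values in `T(N)` -/
noncomputable def Om : WW k C →ₗ[k] (TT k C (WW k C) R →ₗ[k] TT k C (WW k C) (NN C)) :=
  Finsupp.lsum k fun w => (LinearMap.llcomp k _ _ _ (wop k C w)) ∘ₗ TH k C (WW k C) (NN C)

theorem Om_single (w : List (bet k C)) (n : NN C) :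
    Om k C (Finsupp.single w n) = wop k C w ∘ₗ TH k C (WW k C) (NN C) n := by
  simp only [Om, Finsupp.lsum_single]
  rfl

theorem Om_cons (b : bet k C) (t : WW k C) :
    Om k C (Finsupp.mapDomain (List.cons b) t) = nus k C (lam k C (NN C) (bs k C b)) ∘ₗ Om k C t := by
  induction t using Finsupp.induction_linear with
  | zero => simp
  | add x y hx hy => rw [Finsupp.mapDomain_add, map_add, hx, hy, map_add, LinearMap.comp_add]
  | single w n => rw [Finsupp.mapDomain_single, Om_single, Om_single]; rfl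

/-- the operators with values in `T(X)`, second part -/
noncomputable def Psi (X : Type) [AddCommGroup X] [Module k X] [Module Rᵐᵒᵖ X]
    [IsScalarTower k Rᵐᵒᵖ X] :
    (VV k C X ⊗[k] WW k C) →ₗ[k] (TT k C (WW k C) R →ₗ[k] TT k C (WW k C) X) :=
  TensorProduct.lift ((LinearMap.llcomp k _ _ _).compl₁₂ (nusL k C X ∘ₗ lam k C X) (Om k C))

theorem Psi_tmul (v : VV k C X) (t : WW k C) :
    Psi k C X (v ⊗ₜ[k] t) = nus k C (lam k C X v) ∘ₗ Om k C t := rfl

/-- the normal form map -/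
noncomputable def Th (X : Type) [AddCommGroup X] [Module k X] [Module Rᵐᵒᵖ X]
    [IsScalarTower k Rᵐᵒᵖ X] :
    TT k C (WW k C) X →ₗ[k] (TT k C (WW k C) R →ₗ[k] TT k C (WW k C) X) :=
  LinearMap.coprod (TH k C (WW k C) X) (Psi k C X)

theorem Th_apply (x : X) (ξ : VV k C X ⊗[k] WW k C) :
    Th k C X (x, ξ) = TH k C (WW k C) X x + Psi k C X ξ := rfl

/-- the space of operators -/
noncomputable def Rg (X : Type) [AddCommGroup X] [Module k X] [Module Rᵐᵒᵖ X]
    [IsScalarTower k Rᵐᵒᵖ X] : Submodule k (TT k C (WW k C) R →ₗ[k] TT k C (WW k C) X) :=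
  LinearMap.range (Th k C X)

theorem TH_mem (x : X) : TH k C (WW k C) X x ∈ Rg k C X :=
  ⟨(x, 0), by rw [Th_apply, map_zero, add_zero]⟩

theorem Psi_mem (ξ : VV k C X ⊗[k] WW k C) : Psi k C X ξ ∈ Rg k C X :=
  ⟨(0, ξ), by rw [Th_apply, map_zero, zero_add]⟩

theorem PQ (X : Type) [AddCommGroup X] [Module k X] [Module Rᵐᵒᵖ X]
    [IsScalarTower k Rᵐᵒᵖ X] (w : List (bet k C)) :
    (∀ (g : NN C →ₗ[Rᵐᵒᵖ] X) (n : NN C),
      Tm k C (WW k C) g ∘ₗ Om k C (Finsupp.single w n) ∈ Rg k C X) ∧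
    (∀ (ν : Fin m → X) (n : NN C), nus k C ν ∘ₗ Om k C (Finsupp.single w n) ∈ Rg k C X) := by
  have step : ∀ w : List (bet k C), (∀ (g : NN C →ₗ[Rᵐᵒᵖ] X) (n : NN C),
      Tm k C (WW k C) g ∘ₗ Om k C (Finsupp.single w n) ∈ Rg k C X) →
      (∀ (ν : Fin m → X) (n : NN C), nus k C ν ∘ₗ Om k C (Finsupp.single w n) ∈ Rg k C X) := by
    intro w hP ν n
    have h1 : ν - lam k C X (Submodule.Quotient.mk ν) ∈ KK k C X := by
      rw [← Submodule.Quotient.mk_eq_zero, Submodule.Quotient.mk_sub, lam_spec, sub_self]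
    obtain ⟨g, hg⟩ := exists_g k C h1
    have h2 : nus k C ν = nus k C (lam k C X (Submodule.Quotient.mk ν)) +
        Tm k C (WW k C) g := by
      rw [← nus_K k C hg]
      have := (nusL k C X).map_add (lam k C X (Submodule.Quotient.mk ν))
        (ν - lam k C X (Submodule.Quotient.mk ν))
      rw [add_sub_cancel] at this
      exact this
    rw [h2, LinearMap.add_comp, ← Psi_tmul]
    exact Submodule.add_mem _ (Psi_mem k C _) (hP g n)
  have hP : ∀ (g : NN C →ₗ[Rᵐᵒᵖ] X) (n : NN C),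
      Tm k C (WW k C) g ∘ₗ Om k C (Finsupp.single w n) ∈ Rg k C X := by
    induction w with
    | nil =>
      intro g n
      rw [Om_single]
      show Tm k C (WW k C) g ∘ₗ (LinearMap.id ∘ₗ _) ∈ _
      rw [LinearMap.id_comp, Tm_TH]
      exact TH_mem k C _
    | cons b w ih =>
      intro g n
      have h := step w ih (fun q => g (lam k C (NN C) (bs k C b) q)) n
      rw [← Tm_nus, Om_single, LinearMap.comp_assoc, ← LinearMap.comp_assoc _ (wop k C w)] at h
      rw [Om_single]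
      exact h
  exact ⟨hP, step w hP⟩

theorem nus_Om_mem (ν : Fin m → X) (t : WW k C) : nus k C ν ∘ₗ Om k C t ∈ Rg k C X := by
  induction t using Finsupp.induction_linear with
  | zero => rw [map_zero, LinearMap.comp_zero]; exact Submodule.zero_mem _
  | add x y hx hy => rw [map_add, LinearMap.comp_add]; exact Submodule.add_mem _ hx hy
  | single w n => exact (PQ k C X w).2 ν n

theorem Th_N (t : TT k C (WW k C) (NN C)) : Th k C (NN C) t = Om k C (JJ k C t) := by
  have h : Th k C (NN C) = Om k C ∘ₗ JJ k C := by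
    refine LinearMap.prod_ext ?_ ?_
    · refine LinearMap.ext fun n => ?_
      show Th k C (NN C) (n, 0) = Om k C (JJ k C (n, 0))
      rw [JJ_inl, Om_single, Th_apply, map_zero, add_zero]
      rfl
    · refine TensorProduct.ext ((bs k C).ext fun b => LinearMap.ext fun t => ?_)
      show Th k C (NN C) (0, bs k C b ⊗ₜ[k] t) = Om k C (JJ k C (0, bs k C b ⊗ₜ[k] t))
      rw [JJ_basis, Om_cons, Th_apply, map_zero, zero_add, Psi_tmul]
  exact LinearMap.congr_fun h t

theorem Om_of_mem {y : TT k C (WW k C) R →ₗ[k] TT k C (WW k C) (NN C)} (hy : y ∈ Rg k C (NN C)) :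
    ∃ t, y = Om k C t := by
  obtain ⟨ξ, rfl⟩ := hy
  exact ⟨JJ k C ξ, Th_N k C ξ⟩

theorem TH_Th_mem (x : X) {y : TT k C (WW k C) R →ₗ[k] TT k C (WW k C) R} (hy : y ∈ Rg k C R) :
    TH k C (WW k C) X x ∘ₗ y ∈ Rg k C X := by
  obtain ⟨⟨r, ξ⟩, rfl⟩ := hy
  rw [Th_apply, LinearMap.comp_add]
  refine Submodule.add_mem _ ?_ ?_
  · rw [TH_apply, Tm_TH]
    exact TH_mem k C _
  · induction ξ using TensorProduct.induction_on with
    | zero => rw [map_zero, LinearMap.comp_zero]; exact Submodule.zero_mem _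
    | add x y hx hy => rw [map_add, LinearMap.comp_add]; exact Submodule.add_mem _ hx hy
    | tmul v t =>
      rw [Psi_tmul, TH_apply, ← LinearMap.comp_assoc, Tm_nus]
      exact nus_Om_mem k C _ t

theorem wop_mem (w : List (bet k C)) {y : TT k C (WW k C) R →ₗ[k] TT k C (WW k C) (NN C)}
    (hy : y ∈ Rg k C (NN C)) : wop k C w ∘ₗ y ∈ Rg k C (NN C) := by
  induction w with
  | nil => exact hy
  | cons b w ih =>
    obtain ⟨t, ht⟩ := Om_of_mem k C ih
    show (nus k C _ ∘ₗ wop k C w) ∘ₗ y ∈ _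
    rw [LinearMap.comp_assoc, ht]
    exact nus_Om_mem k C _ t

theorem Om_Th_mem (t : WW k C) {y : TT k C (WW k C) R →ₗ[k] TT k C (WW k C) R}
    (hy : y ∈ Rg k C R) : Om k C t ∘ₗ y ∈ Rg k C (NN C) := by
  induction t using Finsupp.induction_linear with
  | zero => rw [map_zero, LinearMap.zero_comp]; exact Submodule.zero_mem _
  | add x y hx hy => rw [map_add, LinearMap.add_comp]; exact Submodule.add_mem _ hx hy
  | single w n =>
    rw [Om_single, LinearMap.comp_assoc]
    exact wop_mem k C w (TH_Th_mem k C n hy)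

theorem comp_mem {z : TT k C (WW k C) R →ₗ[k] TT k C (WW k C) X} (hz : z ∈ Rg k C X)
    {y : TT k C (WW k C) R →ₗ[k] TT k C (WW k C) R} (hy : y ∈ Rg k C R) :
    z ∘ₗ y ∈ Rg k C X := by
  obtain ⟨⟨r, ξ⟩, rfl⟩ := hz
  rw [Th_apply, LinearMap.add_comp]
  refine Submodule.add_mem _ (TH_Th_mem k C r hy) ?_
  induction ξ using TensorProduct.induction_on with
  | zero => rw [map_zero, LinearMap.zero_comp]; exact Submodule.zero_mem _
  | add x y hx hy => rw [map_add, LinearMap.add_comp]; exact Submodule.add_mem _ hx hy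
  | tmul v t =>
    rw [Psi_tmul, LinearMap.comp_assoc]
    obtain ⟨s, hs⟩ := Om_of_mem k C (Om_Th_mem k C t hy)
    rw [hs]
    exact nus_Om_mem k C _ s

theorem TH_one : TH k C (WW k C) R (1 : R) = LinearMap.id := by
  rw [TH_apply]
  have : (hx (1 : R) : R →ₗ[Rᵐᵒᵖ] R) = LinearMap.id := by
    ext
    simp
  rw [this, Tm_id]

/-- the algebra `S` -/
noncomputable def SS : Subalgebra k (Module.End k (TT k C (WW k C) R)) where
  carrier := {x | x ∈ Rg k C R}
  mul_mem' {a b} ha hb := comp_mem k C ha hb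
  one_mem' := by
    have := TH_mem k C (1 : R)
    rwa [TH_one] at this
  add_mem' {a b} ha hb := Submodule.add_mem (Rg k C R) ha hb
  zero_mem' := Submodule.zero_mem (Rg k C R)
  algebraMap_mem' r := by
    have h := Submodule.smul_mem (Rg k C R) r (TH_mem k C (1 : R))
    rw [TH_one] at h
    exact h

end

end Pool.Agent.H623R3.NORE
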