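import Pool.Agent.H354.NORE.Stmts

/-!
# NORE, E1: the model for splitting a left kernel: definitions
-/

set_option autoImplicit false
set_option linter.unusedSectionVars false

namespace Pool.Agent.H623R3.NORE

open TensorProduct MulOpposite

section
variable (k : Type) [Field k] {R : Type} [Ring R] [Algebra k R] {m : ℕ}
  (C : Submodule Rᵐᵒᵖ (Fin m → R))

section
variable (X : Type) [AddCommGroup X] [Module k X] [Module Rᵐᵒᵖ X] [IsScalarTower k Rᵐᵒᵖ X]

/-- the tuples killing `C` -/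
def KK : Submodule k (Fin m → X) where
  carrier := {ν | ∀ c ∈ C, ∑ q, op (c q) • ν q = 0}
  add_mem' {a b} ha hb c hc := by
    simp only [Pi.add_apply, smul_add, Finset.sum_add_distrib, ha c hc, hb c hc, add_zero]
  zero_mem' c hc := by simp
  smul_mem' t a ha c hc := by
    have h := ha c hc
    have h2 : ∀ q, op (c q) • (t • a) q = t • (op (c q) • a q) := fun q => by
      rw [Pi.smul_apply, ← algebraMap_smul Rᵐᵒᵖ t (a q), ← algebraMap_smul Rᵐᵒᵖ t (op (c q) • a q),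
        ← mul_smul, ← mul_smul]
      congr 1
      exact (Algebra.commutes t (op (c q))).symm
    rw [Finset.sum_congr rfl fun q _ => h2 q, ← Finset.smul_sum, h, smul_zero]

/-- the quotient -/
abbrev VV : Type := (Fin m → X) ⧸ KK k C X

end

variable {X Y U : Type} [AddCommGroup X] [Module k X] [Module Rᵐᵒᵖ X] [IsScalarTower k Rᵐᵒᵖ X]
  [AddCommGroup Y] [Module k Y] [Module Rᵐᵒᵖ Y] [IsScalarTower k Rᵐᵒᵖ Y]
  [AddCommGroup U] [Module k U] [Module Rᵐᵒᵖ U] [IsScalarTower k Rᵐᵒᵖ U]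

/-- the induced map -/
def Vm (h : X →ₗ[Rᵐᵒᵖ] Y) : VV k C X →ₗ[k] VV k C Y :=
  Submodule.mapQ _ _ ((h.restrictScalars k).compLeft (Fin m)) (by
    intro ν hν c hc
    have h1 : ∀ q, op (c q) • ((h.restrictScalars k).compLeft (Fin m) ν) q =
        h (op (c q) • ν q) := fun q => by
      simp [LinearMap.compLeft]
    rw [Finset.sum_congr rfl fun q _ => h1 q, ← map_sum, hν c hc, map_zero])

@[simp] theorem Vm_mk (h : X →ₗ[Rᵐᵒᵖ] Y) (ν : Fin m → X) :
    Vm k C h (Submodule.Quotient.mk ν) = Submodule.Quotient.mk (fun q => h (ν q)) := rfl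

/-- the right linear map with given value at one -/
def hx (x : X) : R →ₗ[Rᵐᵒᵖ] X where
  toFun r := op r • x
  map_add' a b := by rw [op_add, add_smul]
  map_smul' s a := by
    rw [RingHom.id_apply, ← mul_smul]
    rfl

@[simp] theorem hx_apply (x : X) (r : R) : hx x r = op r • x := rfl

variable (W : Type) [AddCommGroup W] [Module k W]

/-- the functor -/
abbrev TT (X : Type) [AddCommGroup X] [Module k X] [Module Rᵐᵒᵖ X] [IsScalarTower k Rᵐᵒᵖ X] :
    Type := X × (VV k C X ⊗[k] W)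

/-- the functor on maps -/
noncomputable def Tm (h : X →ₗ[Rᵐᵒᵖ] Y) : TT k C W X →ₗ[k] TT k C W Y :=
  (h.restrictScalars k).prodMap (LinearMap.rTensor W (Vm k C h))

theorem Tm_apply (h : X →ₗ[Rᵐᵒᵖ] Y) (t : TT k C W X) :
    Tm k C W h t = (h t.1, LinearMap.rTensor W (Vm k C h) t.2) := rfl

theorem Vm_comp (h : X →ₗ[Rᵐᵒᵖ] Y) (g : Y →ₗ[Rᵐᵒᵖ] U) :
    Vm k C (g ∘ₗ h) = Vm k C g ∘ₗ Vm k C h := by
  refine LinearMap.ext fun v => ?_
  obtain ⟨ν, rfl⟩ := Submodule.Quotient.mk_surjective _ v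
  rfl

theorem Tm_comp (h : X →ₗ[Rᵐᵒᵖ] Y) (g : Y →ₗ[Rᵐᵒᵖ] U) :
    Tm k C W (g ∘ₗ h) = Tm k C W g ∘ₗ Tm k C W h := by
  refine LinearMap.ext fun t => ?_
  rw [LinearMap.comp_apply, Tm_apply, Tm_apply, Tm_apply, Vm_comp, LinearMap.rTensor_comp]
  rfl

theorem Tm_id : Tm k C W (LinearMap.id : X →ₗ[Rᵐᵒᵖ] X) = LinearMap.id := by
  have h : Vm k C (LinearMap.id : X →ₗ[Rᵐᵒᵖ] X) = LinearMap.id := by
    refine LinearMap.ext fun v => ?_
    obtain ⟨ν, rfl⟩ := Submodule.Quotient.mk_surjective _ v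
    rfl
  refine LinearMap.ext fun t => ?_
  rw [Tm_apply, h, LinearMap.rTensor_id]
  rfl

theorem Vm_add (h g : X →ₗ[Rᵐᵒᵖ] Y) : Vm k C (h + g) = Vm k C h + Vm k C g := by
  refine LinearMap.ext fun v => ?_
  obtain ⟨ν, rfl⟩ := Submodule.Quotient.mk_surjective _ v
  rfl

theorem Tm_add (h g : X →ₗ[Rᵐᵒᵖ] Y) : Tm k C W (h + g) = Tm k C W h + Tm k C W g := by
  refine LinearMap.ext fun t => ?_
  rw [LinearMap.add_apply, Tm_apply, Tm_apply, Tm_apply, Vm_add, LinearMap.rTensor_add]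
  rfl

/-- `x ↦ T(h_x)`, linear in `x` -/
noncomputable def TH (X : Type) [AddCommGroup X] [Module k X] [Module Rᵐᵒᵖ X]
    [IsScalarTower k Rᵐᵒᵖ X] : X →ₗ[k] (TT k C W R →ₗ[k] TT k C W X) where
  toFun x := Tm k C W (hx x)
  map_add' a b := by
    rw [← Tm_add]
    congr 1
    ext
    simp
  map_smul' t a := by
    have h1 : Vm k C (hx (t • a) : R →ₗ[Rᵐᵒᵖ] X) = t • Vm k C (hx a : R →ₗ[Rᵐᵒᵖ] X) := by
      refine LinearMap.ext fun v => ?_
      obtain ⟨ν, rfl⟩ := Submodule.Quotient.mk_surjective _ v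
      rw [Vm_mk, LinearMap.smul_apply, Vm_mk, ← Submodule.Quotient.mk_smul]
      congr 1
      funext q
      rw [Pi.smul_apply, hx_apply, hx_apply]
      rw [← algebraMap_smul Rᵐᵒᵖ t a, ← algebraMap_smul Rᵐᵒᵖ t (op (ν q) • a), ← mul_smul,
        ← mul_smul]
      congr 1
      exact (Algebra.commutes t (op (ν q))).symm
    refine LinearMap.ext fun y => ?_
    rw [RingHom.id_apply, LinearMap.smul_apply, Tm_apply, Tm_apply, h1, LinearMap.rTensor_smul]
    refine Prod.ext ?_ rfl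
    show op y.1 • (t • a) = t • (op y.1 • a)
    rw [← algebraMap_smul Rᵐᵒᵖ t a, ← algebraMap_smul Rᵐᵒᵖ t (op y.1 • a), ← mul_smul, ← mul_smul]
    congr 1
    exact (Algebra.commutes t (op y.1)).symm

end

end Pool.Agent.H623R3.NORE
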