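import Pool.Agent.H623R3.NORE.Pres

/-!
# NORE, E1: the left kernel, and the theorem
-/

set_option autoImplicit false
set_option linter.unusedSectionVars false

namespace Pool.Agent.H623R3.NORE

open TensorProduct MulOpposite Matrix

section
variable (k : Type) [Field k] {R : Type} [Ring R] [Algebra k R] {m n : ℕ}
  (C : Submodule Rᵐᵒᵖ (Fin m → R))

/-- right multiplication on `N` -/
def nc (c : R) : NN C →ₗ[k] NN C where
  toFun x := op c • x
  map_add' a b := smul_add _ _ _
  map_smul' t a := by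
    rw [RingHom.id_apply, ← algebraMap_smul Rᵐᵒᵖ t a, ← algebraMap_smul Rᵐᵒᵖ t (op c • a),
      ← mul_smul, ← mul_smul]
    congr 1
    exact (Algebra.commutes t (op c)).symm

/-- right multiplication on words -/
noncomputable def RW (c : R) : WW k C →ₗ[k] WW k C := Finsupp.mapRange.linearMap (nc k C c)

theorem RW_apply (c : R) (t : WW k C) (w : List (bet k C)) : RW k C c t w = op c • t w := rfl

theorem RW_single (c : R) (w : List (bet k C)) (x : NN C) :
    RW k C c (Finsupp.single w x) = Finsupp.single w (op c • x) := by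
  simp only [RW, Finsupp.mapRange.linearMap_apply, Finsupp.mapRange_single]
  rfl

theorem Om_RW (c : R) (t : WW k C) :
    Om k C (RW k C c t) = Om k C t ∘ₗ TH k C (WW k C) R c := by
  induction t using Finsupp.induction_linear with
  | zero => simp
  | add x y hx hy => rw [map_add, map_add, map_add, hx, hy, LinearMap.add_comp]
  | single w x => rw [RW_single, Om_single, Om_single, LinearMap.comp_assoc, TH_mul]

theorem Psi_RW (c : R) (ξ : VV k C R ⊗[k] WW k C) :
    Psi k C R (LinearMap.lTensor _ (RW k C c) ξ) = Psi k C R ξ ∘ₗ TH k C (WW k C) R c := by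
  induction ξ using TensorProduct.induction_on with
  | zero => simp
  | add x y hx hy => rw [map_add, map_add, map_add, hx, hy, LinearMap.add_comp]
  | tmul v t => rw [LinearMap.lTensor_tmul, Psi_tmul, Psi_tmul, Om_RW, LinearMap.comp_assoc]

theorem fco_RW (c : R) (f : VV k C R →ₗ[k] k) (ξ : VV k C R ⊗[k] WW k C) :
    fco k C f (LinearMap.lTensor _ (RW k C c) ξ) = RW k C c (fco k C f ξ) := by
  induction ξ using TensorProduct.induction_on with
  | zero => simp
  | add x y hx hy => rw [map_add, map_add, map_add, hx, hy, map_add]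
  | tmul v t => rw [LinearMap.lTensor_tmul, fco_tmul, fco_tmul, map_smul]

theorem Om_expand (t : WW k C) (s : Finset (List (bet k C))) (hs : t.support ⊆ s) :
    Om k C t = ∑ w ∈ s, wop k C w ∘ₗ TH k C (WW k C) (NN C) (t w) := by
  have h : t = ∑ w ∈ s, Finsupp.single w (t w) := by
    conv_lhs => rw [← Finsupp.sum_single t]
    exact Finsupp.sum_of_support_subset _ hs _ (by simp)
  conv_lhs => rw [h]
  rw [map_sum]
  exact Finset.sum_congr rfl fun w _ => Om_single k C w (t w)

/-- the key computation for words -/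
theorem Om_ker (t : Fin m → WW k C) (h : ∀ w, (fun p => t p w) ∈ KK k C (NN C)) (q : Fin m) :
    ∑ p, Om k C (t p) ∘ₗ (sg k C p ∘ₗ TH k C (WW k C) (NN C) (pe C q)) = Om k C (t q) := by
  classical
  set s := Finset.univ.biUnion fun p => (t p).support with hs
  have hsub : ∀ p, (t p).support ⊆ s := fun p =>
    Finset.subset_biUnion_of_mem (fun p => (t p).support) (Finset.mem_univ p)
  have h1 : ∀ p, Om k C (t p) ∘ₗ (sg k C p ∘ₗ TH k C (WW k C) (NN C) (pe C q)) =
      ∑ w ∈ s, wop k C w ∘ₗ (TH k C (WW k C) (NN C) (t p w) ∘ₗ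
        (sg k C p ∘ₗ TH k C (WW k C) (NN C) (pe C q))) := by
    intro p
    rw [Om_expand k C (t p) s (hsub p)]
    refine LinearMap.ext fun y => ?_
    simp only [LinearMap.sum_apply, LinearMap.comp_apply]
  rw [Finset.sum_congr rfl fun p _ => h1 p, Finset.sum_comm, Om_expand k C (t q) s (hsub q)]
  refine Finset.sum_congr rfl fun w _ => ?_
  obtain ⟨g, hg⟩ := exists_g k C (h w)
  have h2 : ∑ p, wop k C w ∘ₗ (TH k C (WW k C) (NN C) (t p w) ∘ₗ
        (sg k C p ∘ₗ TH k C (WW k C) (NN C) (pe C q))) =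
      wop k C w ∘ₗ (nus k C (fun p => t p w) ∘ₗ TH k C (WW k C) (NN C) (pe C q)) := by
    refine LinearMap.ext fun y => ?_
    simp only [nus, LinearMap.sum_apply, LinearMap.comp_apply, map_sum]
  rw [h2, nus_K k C hg, Tm_TH, hg q]

theorem expand2 (B : Module.Basis (Module.Basis.ofVectorSpaceIndex k (VV k C R)) k (VV k C R))
    (ξ : VV k C R ⊗[k] WW k C) :
    ∃ s : Finset (Module.Basis.ofVectorSpaceIndex k (VV k C R)), ∀ s', s ⊆ s' →
      ξ = ∑ i ∈ s', (B i) ⊗ₜ[k] (fco k C (B.coord i) ξ) := by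
  classical
  obtain ⟨c, hc⟩ := TensorProduct.eq_repr_basis_left B ξ
  refine ⟨c.support, fun s' hs' => ?_⟩
  have h : ∀ i, fco k C (B.coord i) ξ = c i := by
    intro i
    rw [← hc, Finsupp.sum, map_sum]
    have : ∀ j ∈ c.support, fco k C (B.coord i) (B j ⊗ₜ[k] c j) = if j = i then c i else 0 := by
      intro j _
      rw [fco_tmul, Module.Basis.coord_apply, Module.Basis.repr_self, Finsupp.single_apply]
      split_ifs with h
      · rw [h, one_smul]
      · rw [zero_smul]
    rw [Finset.sum_congr rfl this, Finset.sum_ite_eq']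
    split_ifs with hs
    · rfl
    · rw [Finsupp.notMem_support_iff.1 hs]
  simp only [h]
  conv_lhs => rw [← hc]
  exact Finsupp.sum_of_support_subset _ hs' _ (by simp)

theorem Psi_ker (ξ : Fin m → VV k C R ⊗[k] WW k C)
    (h : ∀ (f : VV k C R →ₗ[k] k) w, (fun p => fco k C f (ξ p) w) ∈ KK k C (NN C)) (q : Fin m) :
    ∑ p, Psi k C R (ξ p) ∘ₗ (sg k C p ∘ₗ TH k C (WW k C) (NN C) (pe C q)) =
      Psi k C R (ξ q) := by
  classical
  let B := Module.Basis.ofVectorSpace k (VV k C R)
  choose s hs using fun p => expand2 k C B (ξ p)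
  set S := Finset.univ.biUnion s with hS
  have hsub : ∀ p, s p ⊆ S := fun p => Finset.subset_biUnion_of_mem s (Finset.mem_univ p)
  have h0 : ∀ p, Psi k C R (ξ p) = ∑ i ∈ S, nus k C (lam k C R (B i)) ∘ₗ
      Om k C (fco k C (B.coord i) (ξ p)) := by
    intro p
    conv_lhs => rw [hs p S (hsub p)]
    rw [map_sum]
    rfl
  have h1 : ∀ p, Psi k C R (ξ p) ∘ₗ (sg k C p ∘ₗ TH k C (WW k C) (NN C) (pe C q)) =
      ∑ i ∈ S, nus k C (lam k C R (B i)) ∘ₗ (Om k C (fco k C (B.coord i) (ξ p)) ∘ₗ
        (sg k C p ∘ₗ TH k C (WW k C) (NN C) (pe C q))) := by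
    intro p
    rw [h0 p]
    refine LinearMap.ext fun y => ?_
    simp only [LinearMap.sum_apply, LinearMap.comp_apply]
  rw [Finset.sum_congr rfl fun p _ => h1 p, Finset.sum_comm, h0 q]
  refine Finset.sum_congr rfl fun i _ => ?_
  rw [← Om_ker k C (fun p => fco k C (B.coord i) (ξ p)) (h (B.coord i)) q]
  refine LinearMap.ext fun y => ?_
  simp only [LinearMap.sum_apply, LinearMap.comp_apply, map_sum]

theorem kp [IsDomain R] (A : Matrix (Fin m) (Fin n) R) : KP k A := by
  intro t ht q
  have h10 : ((1 : R), (0 : VV k (CA A) R ⊗[k] WW k (CA A))) ≠ 0 := fun h =>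
    one_ne_zero (congrArg Prod.fst h)
  have hz : ∀ s : TT k (CA A) (WW k (CA A)) R, Th k (CA A) R s = 0 → s = 0 := by
    intro s hs
    by_contra hne
    exact claimD' k A h10 hne (by rw [hs]; rfl)
  -- the components of the relation
  have h1 : ∀ j, ∑ p, (((t p).1 * A p j,
      LinearMap.lTensor _ (RW k (CA A) (A p j)) (t p).2) : TT k (CA A) (WW k (CA A)) R) = 0 := by
    intro j
    apply hz
    rw [map_sum, ← ht j]
    refine Finset.sum_congr rfl fun p _ => ?_
    obtain ⟨r, ξ⟩ := t p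
    rw [Th_apply, Th_apply, Psi_RW, LinearMap.add_comp, TH_mul]
    rfl
  have hr : ∀ j, ∑ p, (t p).1 * A p j = 0 := by
    intro j
    have h2 := congrArg Prod.fst (h1 j)
    rw [Prod.fst_sum] at h2
    exact h2
  have hξ : ∀ j, ∑ p, LinearMap.lTensor _ (RW k (CA A) (A p j)) (t p).2 = 0 := by
    intro j
    have h2 := congrArg Prod.snd (h1 j)
    rw [Prod.snd_sum] at h2
    exact h2
  -- first part
  have hKr : (fun p => (t p).1) ∈ KK k (CA A) R := by
    intro c hc
    exact hc (fun p => (t p).1) (funext hr)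
  -- second part
  have hKN : ∀ ν : Fin m → NN (CA A), (∀ j, ∑ p, op (A p j) • ν p = 0) →
      ν ∈ KK k (CA A) (NN (CA A)) := by
    intro ν hν c hc
    choose y hy using fun p => Submodule.Quotient.mk_surjective (CA A) (ν p)
    have h2 : ∑ q, op (c q) • ν q = Submodule.Quotient.mk (∑ q, op (c q) • y q) := by
      have : ∀ q, op (c q) • ν q = (CA A).mkQ (op (c q) • y q) := fun q => by
        rw [← hy q]
        rfl
      rw [Finset.sum_congr rfl fun q _ => this q, ← map_sum]
      rfl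
    rw [h2, Submodule.Quotient.mk_eq_zero]
    intro z hzz
    have h3 : ∀ d : Fin m → R, z ⬝ᵥ (∑ q, op (d q) • y q) = ∑ q, (z ⬝ᵥ y q) * d q := by
      intro d
      rw [dotProduct_sum]
      refine Finset.sum_congr rfl fun p _ => ?_
      simp only [dotProduct, Pi.smul_apply, Finset.sum_mul]
      refine Finset.sum_congr rfl fun i _ => ?_
      rw [mul_assoc]
      rfl
    rw [h3]
    refine hc (fun q => z ⬝ᵥ y q) (funext fun j => ?_)
    show ∑ q, (z ⬝ᵥ y q) * A q j = 0
    rw [← h3 (fun q => A q j)]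
    have h4 : (Submodule.Quotient.mk (∑ q, op (A q j) • y q) : NN (CA A)) = 0 := by
      rw [← hν j]
      have : ∀ q, op (A q j) • ν q = (CA A).mkQ (op (A q j) • y q) := fun q => by
        rw [← hy q]
        rfl
      rw [Finset.sum_congr rfl fun q _ => this q, ← map_sum]
      rfl
    rw [Submodule.Quotient.mk_eq_zero] at h4
    exact h4 z hzz
  have hKξ : ∀ (f : VV k (CA A) R →ₗ[k] k) w,
      (fun p => fco k (CA A) f (t p).2 w) ∈ KK k (CA A) (NN (CA A)) := by
    intro f w
    apply hKN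
    intro j
    have h2 := congrArg (fun z => fco k (CA A) f z w) (hξ j)
    simp only [map_sum, map_zero, Finsupp.finsetSum_apply, fco_RW, RW_apply] at h2
    exact h2
  obtain ⟨g, hg⟩ := exists_g k (CA A) hKr
  have h5 : ∑ p, TH k (CA A) (WW k (CA A)) R (t p).1 ∘ₗ (sg k (CA A) p ∘ₗ
      TH k (CA A) (WW k (CA A)) (NN (CA A)) (pe (CA A) q)) =
        TH k (CA A) (WW k (CA A)) R (t q).1 := by
    have h6 : ∑ p, TH k (CA A) (WW k (CA A)) R (t p).1 ∘ₗ (sg k (CA A) p ∘ₗ
        TH k (CA A) (WW k (CA A)) (NN (CA A)) (pe (CA A) q)) =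
        nus k (CA A) (fun p => (t p).1) ∘ₗ
          TH k (CA A) (WW k (CA A)) (NN (CA A)) (pe (CA A) q) := by
      refine LinearMap.ext fun y => ?_
      simp only [nus, LinearMap.sum_apply, LinearMap.comp_apply]
    rw [h6, nus_K k (CA A) hg, Tm_TH, hg q]
  have h7 : ∀ p, Th k (CA A) R (t p) = TH k (CA A) (WW k (CA A)) R (t p).1 +
      Psi k (CA A) R (t p).2 := fun p => rfl
  rw [h7 q, ← h5, ← Psi_ker k (CA A) (fun p => (t p).2) hKξ q, ← Finset.sum_add_distrib]
  refine Finset.sum_congr rfl fun p _ => ?_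
  rw [h7 p, LinearMap.add_comp]

/-- TaskE1 -/
theorem taskE1 : H354P.TaskE1 k :=
  taskE1_of k fun _ _ _ _ _ _ A => ⟨kp k A, pp k A⟩

end

end Pool.Agent.H623R3.NORE
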