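import Pool.Agent.H623R3.NORE.Defs

/-!
# NORE, E1: words, the section and the operators
-/

set_option autoImplicit false
set_option linter.unusedSectionVars false

namespace Pool.Agent.H623R3.NORE

open TensorProduct MulOpposite

section
variable (k : Type) [Field k] {R : Type} [Ring R] [Algebra k R] {m : ℕ}
  (C : Submodule Rᵐᵒᵖ (Fin m → R))

/-- the module `N` -/
abbrev NN : Type := (Fin m → R) ⧸ C

/-- index set of a basis -/
abbrev bet : Type := Module.Basis.ofVectorSpaceIndex k (VV k C (NN C))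

/-- the basis -/
noncomputable def bs : Module.Basis (bet k C) k (VV k C (NN C)) :=
  Module.Basis.ofVectorSpace k (VV k C (NN C))

/-- words with coefficients in `N` -/
abbrev WW : Type := List (bet k C) →₀ NN C

noncomputable instance : DecidableEq (bet k C) := Classical.decEq _

/-- the equivalence (as a map) -/
noncomputable def JJ : TT k C (WW k C) (NN C) →ₗ[k] WW k C :=
  LinearMap.coprod (Finsupp.lsingle []) ((Finsupp.lsum k fun b : bet k C =>
    Finsupp.lmapDomain (NN C) k (List.cons b)) ∘ₗ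
      (TensorProduct.equivFinsuppOfBasisLeft (bs k C)).toLinearMap)

theorem JJ_inl (n : NN C) : JJ k C (n, 0) = Finsupp.single [] n := by
  simp [JJ]

theorem JJ_basis (b : bet k C) (t : WW k C) :
    JJ k C (0, (bs k C b) ⊗ₜ[k] t) = Finsupp.mapDomain (List.cons b) t := by
  have h : (TensorProduct.equivFinsuppOfBasisLeft (bs k C)) ((bs k C b) ⊗ₜ[k] t) =
      Finsupp.single b t := by
    ext i w
    rw [TensorProduct.equivFinsuppOfBasisLeft_apply_tmul_apply, Module.Basis.repr_self,
      Finsupp.single_apply, Finsupp.single_apply]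
    split_ifs <;> simp
  simp only [JJ, LinearMap.coprod_apply, map_zero, zero_add, LinearMap.comp_apply,
    LinearEquiv.coe_coe, h]
  simp

variable {X Y : Type} [AddCommGroup X] [Module k X] [Module Rᵐᵒᵖ X] [IsScalarTower k Rᵐᵒᵖ X]
  [AddCommGroup Y] [Module k Y] [Module Rᵐᵒᵖ Y] [IsScalarTower k Rᵐᵒᵖ Y]

/-- coefficient for a functional -/
noncomputable def fco (f : VV k C X →ₗ[k] k) : VV k C X ⊗[k] WW k C →ₗ[k] WW k C :=
  (TensorProduct.lid k (WW k C)).toLinearMap ∘ₗ LinearMap.rTensor (WW k C) f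

@[simp] theorem fco_tmul (f : VV k C X →ₗ[k] k) (v : VV k C X) (t : WW k C) :
    fco k C f (v ⊗ₜ[k] t) = f v • t := by
  simp [fco]

theorem fco_rTensor (f : VV k C Y →ₗ[k] k) (g : VV k C X →ₗ[k] VV k C Y)
    (ξ : VV k C X ⊗[k] WW k C) :
    fco k C f (LinearMap.rTensor (WW k C) g ξ) = fco k C (f ∘ₗ g) ξ := by
  have : fco k C f ∘ₗ LinearMap.rTensor (WW k C) g = fco k C (f ∘ₗ g) := by
    ext v t
    simp
  exact LinearMap.congr_fun this ξ

theorem equiv_coord (b : bet k C) (ξ : VV k C (NN C) ⊗[k] WW k C) :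
    (TensorProduct.equivFinsuppOfBasisLeft (bs k C)) ξ b = fco k C ((bs k C).coord b) ξ := by
  induction ξ using TensorProduct.induction_on with
  | zero => simp
  | add x y hx hy => rw [map_add, Finsupp.add_apply, hx, hy, map_add]
  | tmul v t =>
    rw [TensorProduct.equivFinsuppOfBasisLeft_apply_tmul_apply, fco_tmul]
    rfl

theorem JJ_apply (t : TT k C (WW k C) (NN C)) : JJ k C t = Finsupp.single [] t.1 +
    ((TensorProduct.equivFinsuppOfBasisLeft (bs k C)) t.2).sum
      (fun b s => Finsupp.mapDomain (List.cons b) s) := by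
  simp only [JJ, LinearMap.coprod_apply, LinearMap.comp_apply, LinearEquiv.coe_coe,
    Finsupp.lsum_apply]
  rfl

theorem JJ_nil (t : TT k C (WW k C) (NN C)) : JJ k C t [] = t.1 := by
  rw [JJ_apply, Finsupp.add_apply, Finsupp.single_eq_same, Finsupp.sum, Finsupp.finset_sum_apply,
    Finset.sum_eq_zero, add_zero]
  intro b _
  exact Finsupp.mapDomain_notin_range _ _ (by simp)

theorem JJ_cons (t : TT k C (WW k C) (NN C)) (b : bet k C) (w : List (bet k C)) :
    JJ k C t (b :: w) = fco k C ((bs k C).coord b) t.2 w := by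
  rw [JJ_apply, Finsupp.add_apply, Finsupp.single_apply, if_neg (by simp), zero_add, Finsupp.sum,
    Finsupp.finset_sum_apply, ← equiv_coord]
  have h : ∀ b' : bet k C, Finsupp.mapDomain (List.cons b')
      ((TensorProduct.equivFinsuppOfBasisLeft (bs k C)) t.2 b') (b :: w) =
      if b' = b then (TensorProduct.equivFinsuppOfBasisLeft (bs k C)) t.2 b w else 0 := by
    intro b'
    split_ifs with hb
    · subst hb
      exact Finsupp.mapDomain_apply (List.cons_injective) _ _
    · refine Finsupp.mapDomain_notin_range _ _ ?_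
      rintro ⟨u, hu⟩
      exact hb (List.cons.inj hu).1
  rw [Finset.sum_congr rfl fun b' _ => h b', Finset.sum_ite_eq']
  split_ifs with hb
  · rfl
  · rw [Finsupp.notMem_support_iff.1 hb]
    rfl

/-- surjection onto `N` as a `k`-linear map, with a section -/
theorem exists_a : ∃ a : NN C →ₗ[k] (Fin m → R), ∀ n, Submodule.Quotient.mk (a n) = n := by
  obtain ⟨a, ha⟩ := LinearMap.exists_rightInverse_of_surjective
    ((C.mkQ).restrictScalars k : (Fin m → R) →ₗ[k] NN C)
    (LinearMap.range_eq_top.2 (Submodule.mkQ_surjective C))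
  exact ⟨a, fun n => LinearMap.congr_fun ha n⟩

/-- the images of the unit vectors in `N` -/
def pe (q : Fin m) : NN C := Submodule.Quotient.mk (Pi.single q 1)

theorem mk_eq_sum (y : Fin m → R) :
    (Submodule.Quotient.mk y : NN C) = ∑ q, op (y q) • pe C q := by
  have h : y = ∑ q, op (y q) • (Pi.single q (1 : R) : Fin m → R) := by
    funext j
    rw [Finset.sum_apply]
    simp [Pi.single_apply]
  have h2 := congrArg (C.mkQ) h
  rw [map_sum] at h2
  simp only [map_smul] at h2
  exact h2

/-- the section on the second part -/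
theorem exists_b : ∃ b : VV k C (NN C) →ₗ[k] (Fin m → VV k C R),
    ∀ v, ∑ q, Vm k C (hx (pe C q)) (b v q) = v := by
  let f : (Fin m → VV k C R) →ₗ[k] VV k C (NN C) :=
    ∑ q, (Vm k C (hx (pe C q))) ∘ₗ LinearMap.proj q
  have hf : Function.Surjective f := by
    intro v
    obtain ⟨ν, rfl⟩ := Submodule.Quotient.mk_surjective _ v
    have hy : ∀ j, ∃ y : Fin m → R, (Submodule.Quotient.mk y : NN C) = ν j := fun j =>
      Submodule.Quotient.mk_surjective _ (ν j)
    choose y hy using hy
    refine ⟨fun q => Submodule.Quotient.mk fun j => y j q, ?_⟩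
    simp only [f, LinearMap.sum_apply, LinearMap.comp_apply, LinearMap.proj_apply, Vm_mk]
    have : ∀ q : Fin m, (Submodule.Quotient.mk (fun j => hx (pe C q) (y j q)) : VV k C (NN C)) =
        (KK k C (NN C)).mkQ (fun j => hx (pe C q) (y j q)) := fun q => rfl
    simp only [this]
    rw [← map_sum]
    show (KK k C (NN C)).mkQ _ = (KK k C (NN C)).mkQ ν
    congr 1
    funext j
    rw [Finset.sum_apply, ← hy j, mk_eq_sum]
    rfl
  obtain ⟨b, hb⟩ := LinearMap.exists_rightInverse_of_surjective f (LinearMap.range_eq_top.2 hf)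
  refine ⟨b, fun v => ?_⟩
  have := LinearMap.congr_fun hb v
  simpa [f, LinearMap.sum_apply] using this

/-- the section of a quotient -/
theorem exists_lam (X : Type) [AddCommGroup X] [Module k X] [Module Rᵐᵒᵖ X]
    [IsScalarTower k Rᵐᵒᵖ X] : ∃ l : VV k C X →ₗ[k] (Fin m → X),
    ∀ v, Submodule.Quotient.mk (l v) = v := by
  obtain ⟨a, ha⟩ := LinearMap.exists_rightInverse_of_surjective
    ((KK k C X).mkQ) (LinearMap.range_eq_top.2 (Submodule.mkQ_surjective _))
  exact ⟨a, fun n => LinearMap.congr_fun ha n⟩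

noncomputable def aa : NN C →ₗ[k] (Fin m → R) := (exists_a k C).choose
theorem aa_spec (n : NN C) : Submodule.Quotient.mk (aa k C n) = n := (exists_a k C).choose_spec n
noncomputable def bb : VV k C (NN C) →ₗ[k] (Fin m → VV k C R) := (exists_b k C).choose
theorem bb_spec (v : VV k C (NN C)) : ∑ q, Vm k C (hx (pe C q)) (bb k C v q) = v :=
  (exists_b k C).choose_spec v
noncomputable def lam (X : Type) [AddCommGroup X] [Module k X] [Module Rᵐᵒᵖ X]
    [IsScalarTower k Rᵐᵒᵖ X] : VV k C X →ₗ[k] (Fin m → X) := (exists_lam k C X).choose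
theorem lam_spec (v : VV k C X) : Submodule.Quotient.mk (lam k C X v) = v :=
  (exists_lam k C X).choose_spec v

/-- the degree zero part of `σ_q` -/
noncomputable def s0 (q : Fin m) : TT k C (WW k C) (NN C) →ₗ[k] TT k C (WW k C) R :=
  (LinearMap.proj q ∘ₗ aa k C).prodMap (LinearMap.rTensor _ (LinearMap.proj q ∘ₗ bb k C))

/-- the degree one part of `σ_q` -/
noncomputable def s1 (q : Fin m) : TT k C (WW k C) (NN C) →ₗ[k] TT k C (WW k C) R :=
  LinearMap.inr k _ _ ∘ₗ (TensorProduct.mk k (VV k C R) (WW k C)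
    (Submodule.Quotient.mk (Pi.single q 1))) ∘ₗ JJ k C

/-- `σ_q` -/
noncomputable def sg (q : Fin m) : TT k C (WW k C) (NN C) →ₗ[k] TT k C (WW k C) R :=
  s0 k C q + s1 k C q

/-- `ν σ` for a tuple `ν` -/
noncomputable def nus (ν : Fin m → X) : TT k C (WW k C) (NN C) →ₗ[k] TT k C (WW k C) X :=
  ∑ q, TH k C (WW k C) X (ν q) ∘ₗ sg k C q

theorem s1_part (ν : Fin m → X) (t : TT k C (WW k C) (NN C)) :
    ∑ q, TH k C (WW k C) X (ν q) (s1 k C q t) = (0, (Submodule.Quotient.mk ν) ⊗ₜ[k] JJ k C t) := by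
  have h : ∀ q, TH k C (WW k C) X (ν q) (s1 k C q t) =
      (0, ((KK k C X).mkQ (Pi.single q (ν q))) ⊗ₜ[k] JJ k C t) := by
    intro q
    simp only [TH, s1, LinearMap.coe_mk, AddHom.coe_mk, LinearMap.comp_apply, LinearMap.inr_apply,
      Tm_apply, map_zero, TensorProduct.mk_apply, LinearMap.rTensor_tmul, Vm_mk]
    refine Prod.ext rfl ?_
    simp only
    congr 1
    show (KK k C X).mkQ _ = (KK k C X).mkQ _
    congr 1
    funext j
    by_cases hj : j = q
    · subst hj
      simp
    · simp [Pi.single_eq_of_ne hj]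
  rw [Finset.sum_congr rfl fun q _ => h q]
  refine Prod.ext ?_ ?_
  · rw [Prod.fst_sum]
    simp
  · rw [Prod.snd_sum]
    simp only
    rw [← TensorProduct.sum_tmul, ← map_sum, Finset.univ_sum_single]
    rfl

/-- `ν σ t = [ν] ⊗ J t + ν s₀ t` -/
theorem nus_apply (ν : Fin m → X) (t : TT k C (WW k C) (NN C)) :
    nus k C ν t = (0, (Submodule.Quotient.mk ν) ⊗ₜ[k] JJ k C t) +
      ∑ q, TH k C (WW k C) X (ν q) (s0 k C q t) := by
  rw [← s1_part]
  simp only [nus, sg, LinearMap.sum_apply, LinearMap.comp_apply, LinearMap.add_apply, map_add,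
    Finset.sum_add_distrib]
  rw [add_comm]

/-- `π σ = 1` -/
theorem pi_sigma : nus k C (pe C) = LinearMap.id := by
  refine LinearMap.ext fun t => ?_
  rw [nus_apply, LinearMap.id_apply]
  have h0 : (Submodule.Quotient.mk (pe C) : VV k C (NN C)) = 0 := by
    rw [Submodule.Quotient.mk_eq_zero]
    intro c hc
    rw [← mk_eq_sum]
    exact (Submodule.Quotient.mk_eq_zero C).2 hc
  rw [h0, TensorProduct.zero_tmul, Prod.mk_zero_zero, zero_add]
  obtain ⟨n, ξ⟩ := t
  simp only [TH, s0, LinearMap.coe_mk, AddHom.coe_mk, Tm_apply, LinearMap.prodMap_apply]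
  refine Prod.ext ?_ ?_
  · rw [Prod.fst_sum]
    simp only [LinearMap.comp_apply, LinearMap.proj_apply, hx_apply]
    rw [← mk_eq_sum, aa_spec]
  · rw [Prod.snd_sum]
    simp only
    have : ∑ q, LinearMap.rTensor (WW k C) (Vm k C (hx (pe C q))) ∘ₗ
        LinearMap.rTensor (WW k C) (LinearMap.proj q ∘ₗ bb k C) = LinearMap.id := by
      refine TensorProduct.ext' fun v t => ?_
      rw [LinearMap.sum_apply]
      simp only [LinearMap.comp_apply, LinearMap.rTensor_tmul, LinearMap.proj_apply]
      rw [← TensorProduct.sum_tmul, bb_spec]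
      rfl
    have h := LinearMap.congr_fun this ξ
    rw [LinearMap.sum_apply] at h
    exact h

end

end Pool.Agent.H623R3.NORE
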