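import Pool.Agent.H623R3.NORE.Asm

/-!
# NORE, E1: preservation of split right kernels
-/

set_option autoImplicit false
set_option linter.unusedSectionVars false

namespace Pool.Agent.H623R3.NORE

open TensorProduct MulOpposite Matrix

section
variable (k : Type) [Field k] {R : Type} [Ring R] [Algebra k R] {m n : ℕ}

/-- pairing with a column in `C` -/
def prC (C : Submodule Rᵐᵒᵖ (Fin m → R)) (c : Fin m → R) (hc : c ∈ C) : VV k C R →ₗ[k] R :=
  (KK k C R).liftQ
    { toFun := fun ρ => ∑ q, ρ q * c q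
      map_add' := fun a b => by simp [add_mul, Finset.sum_add_distrib]
      map_smul' := fun t a => by simp [Finset.smul_sum] } (by
    intro ρ hρ
    exact hρ c hc)

theorem prC_mk (C : Submodule Rᵐᵒᵖ (Fin m → R)) (c : Fin m → R) (hc : c ∈ C) (ρ : Fin m → R) :
    prC k C c hc (Submodule.Quotient.mk ρ) = ∑ q, ρ q * c q := rfl

/-- the functionals with values in `R` -/
noncomputable def fn (C : Submodule Rᵐᵒᵖ (Fin m → R)) (c : Fin m → R) (hc : c ∈ C)
    (f : WW k C →ₗ[k] k) : VV k C R ⊗[k] WW k C →ₗ[k] R :=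
  (TensorProduct.rid k R).toLinearMap ∘ₗ TensorProduct.map (prC k C c hc) f

theorem fn_tmul (C : Submodule Rᵐᵒᵖ (Fin m → R)) (c : Fin m → R) (hc : c ∈ C)
    (f : WW k C →ₗ[k] k) (v : VV k C R) (t : WW k C) :
    fn k C c hc f (v ⊗ₜ[k] t) = f t • prC k C c hc v := by
  simp [fn]

/-- left linearity -/
theorem fn_left (C : Submodule Rᵐᵒᵖ (Fin m → R)) (c : Fin m → R) (hc : c ∈ C)
    (f : WW k C →ₗ[k] k) (r : R) (ξ : VV k C R ⊗[k] WW k C) :
    fn k C c hc f (LinearMap.rTensor (WW k C) (Vm k C (hx r)) ξ) = r * fn k C c hc f ξ := by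
  induction ξ using TensorProduct.induction_on with
  | zero => simp
  | add x y hx hy => rw [map_add, map_add, map_add, hx, hy, mul_add]
  | tmul v t =>
    obtain ⟨ρ, rfl⟩ := Submodule.Quotient.mk_surjective _ v
    rw [LinearMap.rTensor_tmul, fn_tmul, fn_tmul, Vm_mk, prC_mk, prC_mk, mul_smul_comm,
      Finset.mul_sum]
    congr 1
    refine Finset.sum_congr rfl fun q _ => ?_
    rw [← mul_assoc]
    rfl

/-- separation -/
theorem fn_sep (C : Submodule Rᵐᵒᵖ (Fin m → R)) (ξ : VV k C R ⊗[k] WW k C)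
    (h : ∀ (c : Fin m → R) (hc : c ∈ C) (f : WW k C →ₗ[k] k), fn k C c hc f ξ = 0) : ξ = 0 := by
  classical
  let B := Module.Basis.ofVectorSpace k (WW k C)
  obtain ⟨d, hd⟩ := TensorProduct.eq_repr_basis_right B ξ
  have h1 : ∀ i, d i = 0 := by
    intro i
    obtain ⟨ρ, hρ⟩ := Submodule.Quotient.mk_surjective _ (d i)
    rw [← hρ, Submodule.Quotient.mk_eq_zero]
    intro c hc
    have h2 := h c hc (B.coord i)
    rw [← hd, Finsupp.sum, map_sum] at h2
    have h3 : ∀ j ∈ d.support, fn k C c hc (B.coord i) (d j ⊗ₜ[k] B j) =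
        if j = i then prC k C c hc (d i) else 0 := by
      intro j _
      rw [fn_tmul, Module.Basis.coord_apply, Module.Basis.repr_self, Finsupp.single_apply]
      split_ifs with h
      · rw [h, one_smul]
      · rw [zero_smul]
    rw [Finset.sum_congr rfl h3, Finset.sum_ite_eq'] at h2
    have h4 : prC k C c hc (d i) = 0 := by
      split_ifs at h2 with hs
      · exact h2
      · rw [Finsupp.notMem_support_iff.1 hs, map_zero]
    rw [← hρ, prC_mk] at h4
    exact h4
  rw [← hd, Finsupp.sum]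
  refine Finset.sum_eq_zero fun i _ => ?_
  rw [h1, TensorProduct.zero_tmul]

theorem pp (A : Matrix (Fin m) (Fin n) R) : PP k A := by
  intro s t B g _ hker μ hμ i
  -- a left linear functional
  have key : ∀ ψ : TT k (CA A) (WW k (CA A)) R →ₗ[k] R,
      (∀ r y, ψ (TH k (CA A) (WW k (CA A)) R r y) = r * ψ y) →
      ψ (∑ j, TH k (CA A) (WW k (CA A)) R (g i j) (μ j) - μ i) = 0 := by
    intro ψ hψ
    have h1 : B *ᵥ (fun j => ψ (μ j)) = 0 := by
      funext a
      have h2 := congrArg ψ (hμ a)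
      rw [map_sum, map_zero] at h2
      rw [← show (0 : R) = (0 : Fin s → R) a from rfl, ← h2] 
      simp only [Matrix.mulVec, dotProduct]
      exact Finset.sum_congr rfl fun j _ => (hψ _ _).symm
    have h3 := congrFun (hker _ h1) i
    simp only [Matrix.mulVec, dotProduct] at h3
    rw [map_sub, map_sum, ← h3, sub_eq_zero]
    exact Finset.sum_congr rfl fun j _ => hψ _ _
  have h1 : (∑ j, TH k (CA A) (WW k (CA A)) R (g i j) (μ j) - μ i).1 = 0 :=
    key (LinearMap.fst k _ _) fun r y => rfl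
  have h2 : (∑ j, TH k (CA A) (WW k (CA A)) R (g i j) (μ j) - μ i).2 = 0 := by
    refine fn_sep k (CA A) _ fun c hc f => ?_
    exact key (fn k (CA A) c hc f ∘ₗ LinearMap.snd k _ _) fun r y => fn_left k (CA A) c hc f r y.2
  exact sub_eq_zero.1 (Prod.ext h1 h2)

end

end Pool.Agent.H623R3.NORE
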