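import Pool.Agent.H623R3.NORE.Clo

/-!
# NORE, E1: top words: the operators act without zero divisors
-/

set_option autoImplicit false
set_option linter.unusedSectionVars false

namespace Pool.Agent.H623R3.NORE

open TensorProduct MulOpposite

section
variable (k : Type) [Field k] {R : Type} [Ring R] [Algebra k R] {m : ℕ}
  (C : Submodule Rᵐᵒᵖ (Fin m → R))

variable {X Y : Type} [AddCommGroup X] [Module k X] [Module Rᵐᵒᵖ X] [IsScalarTower k Rᵐᵒᵖ X]
  [AddCommGroup Y] [Module k Y] [Module Rᵐᵒᵖ Y] [IsScalarTower k Rᵐᵒᵖ Y]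

/-- degree less than `j` -/
def Low (j : ℕ) (t : TT k C (WW k C) X) : Prop :=
  (j = 0 → t.1 = 0) ∧ ∀ (f : VV k C X →ₗ[k] k) (w : List (bet k C)), j ≤ w.length + 1 →
    fco k C f t.2 w = 0

theorem Low.Tm {j : ℕ} {t : TT k C (WW k C) X} (h : Low k C j t) (g : X →ₗ[Rᵐᵒᵖ] Y) :
    Low k C j (Tm k C (WW k C) g t) := by
  refine ⟨fun hj => ?_, fun f w hw => ?_⟩
  · rw [Tm_apply, h.1 hj]
    simp
  · rw [Tm_apply, fco_rTensor]
    exact h.2 _ w hw

theorem Low.s0 {j : ℕ} {t : TT k C (WW k C) (NN C)} (h : Low k C j t) (q : Fin m) :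
    Low k C j (s0 k C q t) := by
  refine ⟨fun hj => ?_, fun f w hw => ?_⟩
  · show aa k C t.1 q = 0
    rw [h.1 hj]
    simp
  · show fco k C f (LinearMap.rTensor _ (LinearMap.proj q ∘ₗ bb k C) t.2) w = 0
    rw [fco_rTensor]
    exact h.2 _ w hw

theorem Low.sum {ι : Type} {j : ℕ} (s : Finset ι) {t : ι → TT k C (WW k C) X}
    (h : ∀ i ∈ s, Low k C j (t i)) : Low k C j (∑ i ∈ s, t i) := by
  refine ⟨fun hj => ?_, fun f w hw => ?_⟩
  · rw [Prod.fst_sum]
    exact Finset.sum_eq_zero fun i hi => (h i hi).1 hj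
  · rw [Prod.snd_sum, map_sum, Finsupp.finsetSum_apply]
    exact Finset.sum_eq_zero fun i hi => (h i hi).2 f w hw

theorem Low.JJ {j : ℕ} {t : TT k C (WW k C) (NN C)} (h : Low k C j t) (w : List (bet k C))
    (hw : j ≤ w.length) : JJ k C t w = 0 := by
  cases w with
  | nil =>
    rw [JJ_nil]
    exact h.1 (by simpa using hw)
  | cons b w =>
    rw [JJ_cons]
    exact h.2 _ w (by simpa using hw)

theorem Low.nus0 {j : ℕ} {t : TT k C (WW k C) (NN C)} (h : Low k C j t) (ν : Fin m → X) :
    Low k C j (∑ q, TH k C (WW k C) X (ν q) (NORE.s0 k C q t)) :=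
  Low.sum k C _ fun q _ => Low.Tm k C (Low.s0 k C h q) _

theorem nus_coef {j : ℕ} {t : TT k C (WW k C) (NN C)} (h : Low k C j t) (ν : Fin m → X)
    (f : VV k C X →ₗ[k] k) (w : List (bet k C)) (hw : j ≤ w.length + 1) :
    fco k C f (nus k C ν t).2 w = f (Submodule.Quotient.mk ν) • JJ k C t w := by
  rw [nus_apply]
  show fco k C f (_ + _) w = _
  rw [map_add, Finsupp.add_apply, (Low.nus0 k C h ν).2 f w hw, add_zero, fco_tmul,
    Finsupp.smul_apply]

theorem Low.nus {j : ℕ} {t : TT k C (WW k C) (NN C)} (h : Low k C j t) (ν : Fin m → X) :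
    Low k C (j + 1) (nus k C ν t) := by
  refine ⟨fun hj => absurd hj (by omega), fun f w hw => ?_⟩
  rw [nus_coef k C h ν f w (by omega), Low.JJ k C h w (by omega), smul_zero]

theorem Low.wop {j : ℕ} {t : TT k C (WW k C) (NN C)} (h : Low k C j t) (w : List (bet k C)) :
    Low k C (j + w.length) (wop k C w t) := by
  induction w with
  | nil => exact h
  | cons b w ih =>
    have := Low.nus k C ih (lam k C (NN C) (bs k C b))
    rw [List.length_cons, ← add_assoc]
    exact this

theorem wop_coef {d : ℕ} {t : TT k C (WW k C) (NN C)} (h : Low k C (d + 1) t)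
    (u : List (bet k C)) (hu : u.length = d) (w w' : List (bet k C)) (hw : w'.length = w.length) :
    JJ k C (wop k C w t) (w' ++ u) = if w' = w then JJ k C t u else 0 := by
  induction w generalizing w' with
  | nil =>
    have : w' = [] := List.length_eq_zero_iff.1 (by simpa using hw)
    subst this
    rw [if_pos rfl]
    rfl
  | cons b w ih =>
    cases w' with
    | nil => simp at hw
    | cons b' w' =>
      have hl : w'.length = w.length := by simpa using hw
      have h1 := Low.wop k C h w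
      rw [List.cons_append, JJ_cons]
      show fco k C _ (NORE.nus k C _ (NORE.wop k C w t)).2 (w' ++ u) = _
      rw [nus_coef k C h1 _ _ _ (by rw [List.length_append, hl, hu]; omega), lam_spec, ih w' hl]
      have h2 : (bs k C).coord b' (bs k C b) = if b = b' then 1 else 0 := by
        rw [Module.Basis.coord_apply, Module.Basis.repr_self, Finsupp.single_apply]
      rw [h2]
      by_cases hb : b = b'
      · subst hb
        rw [if_pos rfl, one_smul]
        by_cases hww : w' = w
        · rw [if_pos hww, if_pos (by rw [hww])]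
        · rw [if_neg hww, if_neg (fun h => hww (List.cons.inj h).2)]
      · rw [if_neg hb, zero_smul, if_neg (fun h => hb (List.cons.inj h).1.symm)]

theorem Om_apply (t : WW k C) (μ : TT k C (WW k C) R) :
    Om k C t μ = t.sum fun w n => wop k C w (TH k C (WW k C) (NN C) n μ) := by
  simp only [Om, Finsupp.lsum_apply, Finsupp.sum, LinearMap.sum_apply]
  rfl

theorem Low.Om {d l : ℕ} {μ : TT k C (WW k C) R} (h : Low k C (d + 1) μ) {t : WW k C}
    (ht : ∀ w, l < w.length → t w = 0) : Low k C (d + 1 + l) (Om k C t μ) := by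
  rw [Om_apply, Finsupp.sum]
  refine Low.sum k C _ fun w hw => ?_
  have h1 : w.length ≤ l := by
    by_contra hc
    exact (Finsupp.mem_support_iff.1 hw) (ht w (by omega))
  have h2 := Low.wop k C (Low.Tm k C h (hx (t w))) w
  refine ⟨fun hj => absurd hj (by omega), fun f w' hw' => h2.2 f w' (by omega)⟩

theorem Om_coef {d l : ℕ} {μ : TT k C (WW k C) R} (h : Low k C (d + 1) μ) {t : WW k C}
    (ht : ∀ w, l < w.length → t w = 0) (w u : List (bet k C)) (hw : w.length = l)
    (hu : u.length = d) :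
    JJ k C (Om k C t μ) (w ++ u) = JJ k C (TH k C (WW k C) (NN C) (t w) μ) u := by
  rw [Om_apply, Finsupp.sum, map_sum, Finsupp.finsetSum_apply]
  have key : ∀ w' ∈ t.support, JJ k C (wop k C w' (TH k C (WW k C) (NN C) (t w') μ)) (w ++ u) =
      if w' = w then JJ k C (TH k C (WW k C) (NN C) (t w) μ) u else 0 := by
    intro w' hw'
    have h1 : w'.length ≤ l := by
      by_contra hc
      exact (Finsupp.mem_support_iff.1 hw') (ht w' (by omega))
    have h3 : Low k C (d + 1) (TH k C (WW k C) (NN C) (t w') μ) := Low.Tm k C h (hx (t w'))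
    rcases h1.lt_or_eq with h2 | h2
    · have h4 := Low.JJ k C (Low.wop k C h3 w') (w ++ u) (by
        rw [List.length_append]; omega)
      rw [h4, if_neg]
      rintro rfl
      omega
    · rw [wop_coef k C h3 u hu w' w (by omega)]
      by_cases hww : w = w'
      · subst hww
        rfl
      · rw [if_neg hww, if_neg (Ne.symm hww)]
  rw [Finset.sum_congr rfl key, Finset.sum_ite_eq']
  split_ifs with hs
  · rfl
  · rw [Finsupp.notMem_support_iff.1 hs, map_zero]
    simp

/-- expansion over a basis of the left factor -/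
theorem expand (ξ : VV k C X ⊗[k] WW k C) :
    ∃ (ι : Type) (B : Module.Basis ι k (VV k C X)) (s : Finset ι),
      ξ = ∑ i ∈ s, (B i) ⊗ₜ[k] (fco k C (B.coord i) ξ) := by
  classical
  let B := Module.Basis.ofVectorSpace k (VV k C X)
  obtain ⟨c, hc⟩ := TensorProduct.eq_repr_basis_left B ξ
  refine ⟨_, B, c.support, ?_⟩
  have h : ∀ i, fco k C (B.coord i) ξ = c i := by
    intro i
    rw [← hc, Finsupp.sum, map_sum]
    have : ∀ j ∈ c.support, fco k C (B.coord i) (B j ⊗ₜ[k] c j) = if j = i then c i else 0 := by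
      intro j _
      rw [fco_tmul, Module.Basis.coord_apply, Module.Basis.repr_self, Finsupp.single_apply]
      split_ifs with h
      · rw [h, one_smul]
      · rw [zero_smul]
    rw [Finset.sum_congr rfl this, Finset.sum_ite_eq']
    split_ifs with hs
    · rfl
    · rw [Finsupp.notMem_support_iff.1 hs]
  simp only [h]
  exact hc.symm

theorem Psi_coef {d l : ℕ} {μ : TT k C (WW k C) R} (h : Low k C (d + 1) μ)
    {ξ : VV k C X ⊗[k] WW k C}
    (ht : ∀ (f : VV k C X →ₗ[k] k) w, l < w.length → fco k C f ξ w = 0)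
    (f : VV k C X →ₗ[k] k) (w u : List (bet k C)) (hw : w.length = l) (hu : u.length = d) :
    fco k C f (Psi k C X ξ μ).2 (w ++ u) =
      JJ k C (TH k C (WW k C) (NN C) (fco k C f ξ w) μ) u := by
  obtain ⟨ι, B, s, hs⟩ := expand k C ξ
  have h1 : ∀ i ∈ s, fco k C f (Psi k C X ((B i) ⊗ₜ[k] (fco k C (B.coord i) ξ)) μ).2 (w ++ u) =
      f (B i) • JJ k C (TH k C (WW k C) (NN C) (fco k C (B.coord i) ξ w) μ) u := by
    intro i _
    rw [Psi_tmul, LinearMap.comp_apply,
      nus_coef k C (Low.Om k C h (ht (B.coord i))) _ f _ (by rw [List.length_append]; omega),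
      lam_spec, Om_coef k C h (ht (B.coord i)) w u hw hu]
  have h2 : fco k C f (Psi k C X ξ μ).2 (w ++ u) = ∑ i ∈ s,
      fco k C f (Psi k C X ((B i) ⊗ₜ[k] (fco k C (B.coord i) ξ)) μ).2 (w ++ u) := by
    conv_lhs => rw [hs]
    rw [map_sum, LinearMap.sum_apply, Prod.snd_sum, map_sum, Finsupp.finsetSum_apply]
  have h3 : fco k C f ξ w = ∑ i ∈ s, f (B i) • (fco k C (B.coord i) ξ w) := by
    conv_lhs => rw [hs]
    rw [map_sum, Finsupp.finsetSum_apply]
    refine Finset.sum_congr rfl fun i _ => ?_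
    rw [fco_tmul, Finsupp.smul_apply]
  rw [h2, Finset.sum_congr rfl h1, h3, map_sum, LinearMap.sum_apply, map_sum,
    Finsupp.finsetSum_apply]
  refine Finset.sum_congr rfl fun i _ => ?_
  rw [map_smul, LinearMap.smul_apply, map_smul, Finsupp.smul_apply]

theorem exists_bound (ξ : VV k C X ⊗[k] WW k C) :
    ∃ B : ℕ, ∀ (f : VV k C X →ₗ[k] k) w, B ≤ w.length → fco k C f ξ w = 0 := by
  induction ξ using TensorProduct.induction_on with
  | zero => exact ⟨0, fun f w _ => by simp⟩
  | add x y hx hy =>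
    obtain ⟨a, ha⟩ := hx
    obtain ⟨b, hb⟩ := hy
    refine ⟨max a b, fun f w hw => ?_⟩
    rw [map_add, Finsupp.add_apply, ha f w (le_trans (le_max_left _ _) hw),
      hb f w (le_trans (le_max_right _ _) hw), add_zero]
  | tmul v t =>
    refine ⟨t.support.sup List.length + 1, fun f w hw => ?_⟩
    rw [fco_tmul, Finsupp.smul_apply]
    have : t w = 0 := by
      by_contra hc
      have := Finset.le_sup (f := List.length) (Finsupp.mem_support_iff.2 hc)
      omega
    rw [this, smul_zero]

theorem exists_top {ξ : VV k C X ⊗[k] WW k C} (hξ : ξ ≠ 0) :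
    ∃ (f : VV k C X →ₗ[k] k) (w : List (bet k C)), fco k C f ξ w ≠ 0 ∧
      ∀ (f' : VV k C X →ₗ[k] k) w', w.length < w'.length → fco k C f' ξ w' = 0 := by
  classical
  have hex := exists_bound k C ξ
  have h1 := Nat.find_spec hex
  rcases Nat.eq_zero_or_pos (Nat.find hex) with h0 | h0
  · exfalso
    apply hξ
    obtain ⟨ι, B, s, hs⟩ := expand k C ξ
    rw [hs]
    refine Finset.sum_eq_zero fun i _ => ?_
    have : fco k C (B.coord i) ξ = 0 := by
      ext1 w
      exact h1 _ w (by omega)
    rw [this, TensorProduct.tmul_zero]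
  · have h2 := Nat.find_min hex (m := Nat.find hex - 1) (by omega)
    push Not at h2
    obtain ⟨f, w, hw, hne⟩ := h2
    refine ⟨f, w, hne, fun f' w' hw' => h1 f' w' (by omega)⟩

/-- coefficients after an injective map -/
theorem exists_pull (g : VV k C X →ₗ[k] VV k C Y) (hg : Function.Injective g)
    (f : VV k C X →ₗ[k] k) : ∃ f' : VV k C Y →ₗ[k] k, f' ∘ₗ g = f := by
  obtain ⟨r, hr⟩ := LinearMap.exists_leftInverse_of_injective g (LinearMap.ker_eq_bot.2 hg)
  exact ⟨f ∘ₗ r, by rw [LinearMap.comp_assoc, hr, LinearMap.comp_id]⟩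

theorem exists_deg (hT : ∀ (n : NN C) (c : R), op c • n = 0 → n = 0 ∨ c = 0)
    (hI : ∀ n : NN C, n ≠ 0 → Function.Injective (Vm k C (hx n)))
    {μ : TT k C (WW k C) R} (hμ : μ ≠ 0) :
    ∃ d : ℕ, Low k C (d + 1) μ ∧ ∀ n : NN C, n ≠ 0 →
      ∃ u : List (bet k C), u.length = d ∧ JJ k C (TH k C (WW k C) (NN C) n μ) u ≠ 0 := by
  obtain ⟨c, η⟩ := μ
  by_cases hη : η = 0
  · subst hη
    have hc : c ≠ 0 := fun h => hμ (by rw [h]; rfl)
    refine ⟨0, ⟨fun h => absurd h (by omega), fun f w _ => by simp⟩, fun n hn => ⟨[], rfl, ?_⟩⟩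
    rw [JJ_nil]
    intro h
    rcases hT n c h with h | h
    · exact hn h
    · exact hc h
  · obtain ⟨f, w, hne, hmax⟩ := exists_top k C hη
    refine ⟨w.length + 1, ⟨fun h => absurd h (by omega), fun f' w' hw' =>
      hmax f' w' (by omega)⟩, fun n hn => ?_⟩
    obtain ⟨f', hf'⟩ := exists_pull k C _ (hI n hn) f
    by_contra hcon
    push Not at hcon
    apply hne
    rw [← hf', ← fco_rTensor]
    set ξ' := LinearMap.rTensor (WW k C) (Vm k C (hx n)) η with hξ'
    have h2 : ∀ b, fco k C ((bs k C).coord b) ξ' w = 0 := by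
      intro b
      have := hcon (b :: w) (by simp)
      rw [JJ_cons] at this
      exact this
    obtain ⟨c', hc'⟩ := TensorProduct.eq_repr_basis_left (bs k C) ξ'
    have h3 : ∀ i, c' i w = 0 := by
      intro i
      have h4 : fco k C ((bs k C).coord i) ξ' = c' i := by
        rw [← hc', Finsupp.sum, map_sum]
        have : ∀ j ∈ c'.support, fco k C ((bs k C).coord i) ((bs k C) j ⊗ₜ[k] c' j) =
            if j = i then c' i else 0 := by
          intro j _
          rw [fco_tmul, Module.Basis.coord_apply, Module.Basis.repr_self, Finsupp.single_apply]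
          split_ifs with h
          · rw [h, one_smul]
          · rw [zero_smul]
        rw [Finset.sum_congr rfl this, Finset.sum_ite_eq']
        split_ifs with hs
        · rfl
        · rw [Finsupp.notMem_support_iff.1 hs]
      rw [← h4]
      exact h2 i
    rw [← hc', Finsupp.sum, map_sum, Finsupp.finsetSum_apply]
    refine Finset.sum_eq_zero fun i _ => ?_
    rw [fco_tmul, Finsupp.smul_apply, h3, smul_zero]

/-- claim D -/
theorem claimD [IsDomain R] (hT : ∀ (n : NN C) (c : R), op c • n = 0 → n = 0 ∨ c = 0)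
    (hI : ∀ n : NN C, n ≠ 0 → Function.Injective (Vm k C (hx n)))
    (hR : ∀ n : R, n ≠ 0 → Function.Injective (Vm k C (hx n)))
    {μ : TT k C (WW k C) R} (hμ : μ ≠ 0) {t : TT k C (WW k C) R} (ht : t ≠ 0) :
    Th k C R t μ ≠ 0 := by
  obtain ⟨a, ξ⟩ := t
  by_cases hξ : ξ = 0
  · subst hξ
    have ha : a ≠ 0 := fun h => ht (by rw [h]; rfl)
    rw [Th_apply, map_zero, add_zero]
    obtain ⟨c, η⟩ := μ
    intro h0
    by_cases hη : η = 0
    · subst hη
      have hc : c ≠ 0 := fun h => hμ (by rw [h]; rfl)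
      have h1 : a * c = 0 := congrArg Prod.fst h0
      rcases mul_eq_zero.1 h1 with h | h
      · exact ha h
      · exact hc h
    · obtain ⟨f, w, hne, -⟩ := exists_top k C hη
      obtain ⟨f', hf'⟩ := exists_pull k C _ (hR a ha) f
      apply hne
      rw [← hf', ← fco_rTensor]
      have h1 : LinearMap.rTensor (WW k C) (Vm k C (hx a)) η = 0 := congrArg Prod.snd h0
      rw [h1]
      simp
  · obtain ⟨f, w, hne, hmax⟩ := exists_top k C hξ
    obtain ⟨d, hlow, hd⟩ := exists_deg k C hT hI hμ
    obtain ⟨u, hu, hnu⟩ := hd _ hne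
    intro h0
    apply hnu
    rw [← Psi_coef k C hlow hmax f w u rfl hu]
    have h1 : (Th k C R (a, ξ) μ).2 =
        (TH k C (WW k C) R a μ).2 + (Psi k C R ξ μ).2 := by
      rw [Th_apply]
      rfl
    have h2 : fco k C f (TH k C (WW k C) R a μ).2 (w ++ u) = 0 :=
      (Low.Tm k C hlow (hx a)).2 f _ (by rw [List.length_append]; omega)
    have h3 : fco k C f (Th k C R (a, ξ) μ).2 (w ++ u) = 0 := by
      rw [h0]
      simp
    rw [h1, map_add, Finsupp.add_apply, h2, zero_add] at h3
    exact h3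

end

end Pool.Agent.H623R3.NORE
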